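import Pool.Agent.H3.Y.St2

/-! Statement (D3) (helper68): a `4`-graph with few odd five-sets is close to the coboundary of the link of a vertex. -/

set_option autoImplicit false
open Finset

namespace Pool.Agent.H68.L2

open Pool.Agent.H3.Y

section
variable {V : Type} [Fintype V] [DecidableEq V]

open Classical in
/-- the link of a vertex -/
noncomputable def lnk (H : Finset (Finset V)) (v : V) : Finset (Finset V) :=
  ((univ : Finset V).powersetCard 3).filter fun e => v ∉ e ∧ insert v e ∈ H

open Classical in
theorem mem_lnk {H : Finset (Finset V)} {v : V} {e : Finset V} :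
    e ∈ lnk H v ↔ e.card = 3 ∧ v ∉ e ∧ insert v e ∈ H := by
  simp [lnk, mem_powersetCard]

/-- quadruples with the vertex -/
theorem inside_mem {H : Finset (Finset V)} {v : V} {T : Finset V} (hT : T.card = 4) (hv : v ∈ T) :
    T ∈ H ↔ Odd (inside (lnk H v) T) := by
  classical
  have key : (lnk H v).filter (fun e => e ⊆ T) = if T ∈ H then {T.erase v} else ∅ := by
    ext e
    rw [mem_filter, mem_lnk]
    constructor
    · rintro ⟨⟨h1, h2, h3⟩, h4⟩
      have h5 : e = T.erase v := by
        apply eq_of_subset_of_card_le
        · intro x hx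
          exact mem_erase.2 ⟨fun h => h2 (h ▸ hx), h4 hx⟩
        · rw [card_erase_of_mem hv, hT, h1]
      subst h5
      rw [insert_erase hv] at h3
      rw [if_pos h3]
      exact mem_singleton_self _
    · intro h
      by_cases hH : T ∈ H
      · rw [if_pos hH, mem_singleton] at h
        subst h
        refine ⟨⟨by rw [card_erase_of_mem hv, hT], notMem_erase v T, by rwa [insert_erase hv]⟩, erase_subset _ _⟩
      · rw [if_neg hH] at h
        exact absurd h (notMem_empty _)
  have e1 : inside (lnk H v) T = ((lnk H v).filter (fun e => e ⊆ T)).card := by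
    unfold inside
    congr
  rw [e1, key]
  by_cases hH : T ∈ H
  · simp [hH]
  · simp [hH]

/-- quadruples without the vertex -/
theorem inside_notMem {H : Finset (Finset V)} (hH : ∀ e ∈ H, e.card = 4) {v : V} {T : Finset V} (hT : T.card = 4)
    (hv : v ∉ T) : inside H (insert v T) = (if T ∈ H then 1 else 0) + inside (lnk H v) T := by
  classical
  have e1 : inside (lnk H v) T = ((lnk H v).filter (fun e => e ⊆ T)).card := by
    unfold inside
    congr
  have e2 : inside H (insert v T) = (H.filter (fun e => e ⊆ insert v T)).card := by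
    unfold inside
    congr
  rw [e1, e2, ← card_filter_add_card_filter_not (s := H.filter (fun e => e ⊆ insert v T)) (fun e => v ∉ e)]
  congr 1
  · have key : (H.filter (fun e => e ⊆ insert v T)).filter (fun e => v ∉ e) = if T ∈ H then {T} else ∅ := by
      ext e
      rw [mem_filter, mem_filter]
      constructor
      · rintro ⟨⟨h1, h2⟩, h3⟩
        have h5 : e = T := by
          apply eq_of_subset_of_card_le
          · intro x hx
            rcases mem_insert.1 (h2 hx) with h | h
            · exact absurd (h ▸ hx) h3
            · exact h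
          · rw [hT, hH e h1]
        subst h5
        rw [if_pos h1]
        exact mem_singleton_self _
      · intro h
        by_cases hTH : T ∈ H
        · rw [if_pos hTH, mem_singleton] at h
          subst h
          exact ⟨⟨hTH, subset_insert _ _⟩, hv⟩
        · rw [if_neg hTH] at h
          exact absurd h (notMem_empty _)
    rw [key]
    by_cases hTH : T ∈ H
    · simp [hTH]
    · simp [hTH]
  · symm
    apply card_bij (fun e _ => insert v e)
    · intro e he
      rw [mem_filter, mem_lnk] at he
      obtain ⟨⟨h1, h2, h3⟩, h4⟩ := he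
      rw [mem_filter, mem_filter]
      exact ⟨⟨h3, insert_subset_insert v h4⟩, fun h => h (mem_insert_self v e)⟩
    · intro e he f hf h
      rw [mem_filter, mem_lnk] at he hf
      have h1 := congrArg (fun s => s.erase v) h
      simpa [erase_insert he.1.2.1, erase_insert hf.1.2.1] using h1
    · intro e he
      rw [mem_filter, mem_filter] at he
      obtain ⟨⟨h1, h2⟩, h3⟩ := he
      have h3' : v ∈ e := by
        by_contra h
        exact h3 h
      refine ⟨e.erase v, ?_, insert_erase h3'⟩
      rw [mem_filter, mem_lnk]
      refine ⟨⟨by rw [card_erase_of_mem h3', hH e h1], notMem_erase v e, by rwa [insert_erase h3']⟩, ?_⟩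
      intro x hx
      rw [mem_erase] at hx
      rcases mem_insert.1 (h2 hx.2) with h | h
      · exact absurd h hx.1
      · exact h

/-- the odd five-sets through a vertex -/
theorem cob_le {H : Finset (Finset V)} (hH : ∀ e ∈ H, e.card = 4) (v : V) {O : Finset (Finset V)}
    (hO : ∀ S, S ∈ O ↔ S.card = 5 ∧ Odd (inside H S)) :
    cobDist H (lnk H v) ≤ ∑ S ∈ O, if v ∈ S then 1 else 0 := by
  classical
  have e0 : cobDist H (lnk H v) =
      (((univ : Finset V).powersetCard 4).filter fun T => ¬ (T ∈ H ↔ Odd (inside (lnk H v) T))).card := by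
    unfold cobDist
    congr
  rw [← card_filter, e0]
  refine card_le_card_of_injOn (fun T => insert v T) ?_ ?_
  · intro T hT
    rw [mem_coe, mem_filter, mem_powersetCard] at hT
    obtain ⟨⟨_, hT4⟩, hbad⟩ := hT
    rw [mem_coe, mem_filter, hO]
    by_cases hv : v ∈ T
    · exact absurd (inside_mem hT4 hv) hbad
    · refine ⟨⟨by rw [card_insert_of_notMem hv, hT4], ?_⟩, mem_insert_self v T⟩
      rw [inside_notMem hH hT4 hv]
      by_cases hTH : T ∈ H
      · rw [if_pos hTH]
        have h1 : ¬ Odd (inside (lnk H v) T) := fun h => hbad ⟨fun _ => h, fun _ => hTH⟩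
        rw [Nat.not_odd_iff_even] at h1
        rw [add_comm]
        exact h1.add_one
      · rw [if_neg hTH, zero_add]
        by_contra h
        exact hbad ⟨fun h' => absurd h' hTH, fun h' => absurd h' h⟩
  · intro T hT T' hT' h
    rw [mem_coe, mem_filter, mem_powersetCard] at hT hT'
    have hn : ∀ T : Finset V, T.card = 4 → ¬ (T ∈ H ↔ Odd (inside (lnk H v) T)) → v ∉ T :=
      fun T h4 hb hv => hb (inside_mem h4 hv)
    have h1 := congrArg (fun s => s.erase v) h
    simpa [erase_insert (hn T hT.1.2 hT.2), erase_insert (hn T' hT'.1.2 hT'.2)] using h1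

end

theorem t_COB : S_COB := by
  classical
  intro n H hF
  have hH : ∀ e ∈ H, e.card = 4 := fun e he => hF e he
  rcases Nat.eq_zero_or_pos n with h0 | h0
  · subst h0
    exact ⟨∅, fun e he => absurd he (notMem_empty e), by simp⟩
  by_contra hcon
  push Not at hcon
  have h1 : ∀ v : Fin n, 5 * odd5 H < n * cobDist H (lnk H v) := fun v =>
    hcon (lnk H v) (fun e he => (mem_lnk.1 he).1)
  set O : Finset (Finset (Fin n)) := ((univ : Finset (Fin n)).powersetCard 5).filter fun S => Odd (inside H S) with hOdef
  have hO : ∀ S, S ∈ O ↔ S.card = 5 ∧ Odd (inside H S) := by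
    intro S
    rw [hOdef, mem_filter, mem_powersetCard]
    simp
  have hOc : odd5 H = O.card := by
    unfold odd5
    rw [hOdef]
  have h2 : ∑ v : Fin n, cobDist H (lnk H v) ≤ 5 * odd5 H := by
    calc ∑ v : Fin n, cobDist H (lnk H v) ≤ ∑ v : Fin n, ∑ S ∈ O, (if v ∈ S then 1 else 0) :=
          sum_le_sum fun v _ => cob_le hH v hO
      _ = ∑ S ∈ O, ∑ v : Fin n, (if v ∈ S then 1 else 0) := sum_comm
      _ = ∑ S ∈ O, 5 := by
          refine sum_congr rfl fun S hS => ?_
          rw [← card_filter]
          have : (univ.filter fun v => v ∈ S) = S := by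
            ext v
            simp
          rw [this]
          exact ((hO S).1 hS).1
      _ = 5 * odd5 H := by
          rw [sum_const, smul_eq_mul, hOc, mul_comm]
  have h3 : ∑ _v : Fin n, 5 * odd5 H < ∑ v : Fin n, n * cobDist H (lnk H v) :=
    sum_lt_sum_of_nonempty ⟨⟨0, h0⟩, mem_univ _⟩ fun v _ => h1 v
  have h4 : ∑ _v : Fin n, 5 * odd5 H = n * (5 * odd5 H) := by
    rw [sum_const, card_univ, Fintype.card_fin, smul_eq_mul]
  have h5 : ∑ v : Fin n, n * cobDist H (lnk H v) = n * ∑ v : Fin n, cobDist H (lnk H v) := (mul_sum _ _ _).symm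
  rw [h4, h5] at h3
  exact absurd (Nat.mul_le_mul_left n h2) (not_le.2 h3)

end Pool.Agent.H68.L2
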