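import Pool.Agent.H3.Y.St
import Pool.Agent.H63.L2.Low

/-! The lower bound `31/64` for the squares of the codegrees (helper68). -/

set_option autoImplicit false

namespace Pool.Agent.H68.L2

open Pool.Agent.H3.Y

theorem low : S_LOW := ⟨258, fun n => Pool.Agent.H63.L2.low n⟩

end Pool.Agent.H68.L2
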